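import Pool.Agent.Helper75.PZ.GoalsB

/-!
# PZ-CHN: chains along a continuous curve
-/

namespace Pool.Agent.Helper56.PZ

open Pool.Agent.Helper75.PZ

theorem chn (h1 : P_TRJ) : P_CHN := by
  intro M _ r hr h γ hγ
  have huc : UniformContinuousOn γ (Set.Icc (0 : ℝ) 1) :=
    isCompact_Icc.uniformContinuousOn_of_continuous hγ
  rw [Metric.uniformContinuousOn_iff] at huc
  obtain ⟨δ, hδ, hd⟩ := huc r hr
  obtain ⟨n, hn⟩ := exists_nat_one_div_lt hδ
  have hN : (0 : ℝ) < (n : ℝ) + 1 := by positivity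
  have key : ∀ i : ℕ, i ≤ n + 1 → RJ (γ 0) (γ ((i : ℝ) / ((n : ℝ) + 1))) := by
    intro i
    induction i with
    | zero =>
      intro _
      refine h _ _ ?_
      simp [hr.le]
    | succ i ih =>
      intro hi
      refine h1 M _ _ _ (ih (by omega)) (h _ _ ?_)
      have hi' : (i : ℝ) + 1 ≤ (n : ℝ) + 1 := by exact_mod_cast hi
      have hi0 : (0 : ℝ) ≤ (i : ℝ) := Nat.cast_nonneg i
      have hm1 : (i : ℝ) / ((n : ℝ) + 1) ∈ Set.Icc (0 : ℝ) 1 := by
        constructor
        · positivity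
        · rw [div_le_one hN]; linarith
      have hm2 : ((i + 1 : ℕ) : ℝ) / ((n : ℝ) + 1) ∈ Set.Icc (0 : ℝ) 1 := by
        constructor
        · positivity
        · rw [div_le_one hN]; push_cast; linarith
      refine le_of_lt (hd _ hm1 _ hm2 ?_)
      rw [Real.dist_eq]
      have : (i : ℝ) / ((n : ℝ) + 1) - ((i + 1 : ℕ) : ℝ) / ((n : ℝ) + 1)
          = -(1 / ((n : ℝ) + 1)) := by
        push_cast
        field_simp
        ring
      rw [this, abs_neg, abs_of_pos (by positivity)]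
      exact hn
  have := key (n + 1) le_rfl
  have e : (((n + 1 : ℕ) : ℝ)) / ((n : ℝ) + 1) = 1 := by
    push_cast
    exact div_self hN.ne'
  rwa [e] at this

end Pool.Agent.Helper56.PZ
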